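import Pool.Agent.Q82.KV

/-!
# MP_e4fc02_an : an honest, not genuinely honest Kato-Voigt semigroup with a null vector outside
`D(M₁)`, for which `1` is not an eigenvalue of `P (0 - M₁)⁻¹`
-/

namespace Pool.Agent.Results.MP_e4fc02_an.NoFixedPoint

open Filter Topology Set

noncomputable section

/-- The real space `L^1(ν)` for the counting measure `ν` on `ℕ`. -/
abbrev E : Type := lp (fun _ : ℕ => ℝ) 1

/-- Bounded operators on `L^1(ν)`. -/
abbrev Op : Type := E →L[ℝ] E

/-- Linear operators in `L^1(ν)`, with a domain. -/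
abbrev UOp : Type := E →ₗ.[ℝ] E

/-- The value `T x` of a bounded operator. -/
def ap (T : Op) (x : E) : E := T x

/-- `x ∈ D(A)` and `A x = y`. -/
def Val (A : UOp) (x y : E) : Prop := (x, y) ∈ A.graph

/-- The sum `A + B`, with domain `D(A) ∩ D(B)`. -/
def sumOp (A B : UOp) : UOp := A + B

/-- Elements of the cone `L^1_+(ν)`. -/
def Pos (x : E) : Prop := ∀ n, 0 ≤ x n

/-- `C_0`-semigroups. -/
def IsSemigroup (S : ℝ → Op) : Prop :=
  (∀ x, ap (S 0) x = x) ∧
  (∀ s t, 0 ≤ s → 0 ≤ t → ∀ x, ap (S (s + t)) x = ap (S s) (ap (S t) x)) ∧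
  ∀ x, ContinuousOn (fun t => ap (S t) x) (Ici 0)

/-- Substochastic (positive, contractive) `C_0`-semigroups. -/
def IsSubstochastic (S : ℝ → Op) : Prop :=
  IsSemigroup S ∧ (∀ t, 0 ≤ t → ∀ x, Pos x → Pos (ap (S t) x)) ∧
  ∀ t, 0 ≤ t → ∀ x, ‖ap (S t) x‖ ≤ ‖x‖

/-- `x` is in the domain of the generator of `S`, and the value of the generator at `x` is `y`. -/
def Gen (S : ℝ → Op) (x y : E) : Prop :=
  Tendsto (fun t : ℝ => t⁻¹ • (ap (S t) x - x)) (𝓝[>] 0) (𝓝 y)

/-- `A` is the generator of `S`. -/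
def IsGenerator (A : UOp) (S : ℝ → Op) : Prop := ∀ x y, Gen S x y ↔ Val A x y

/-- The generator of `S` extends `A`. -/
def Extends (S : ℝ → Op) (A : UOp) : Prop := ∀ x y, Val A x y → Gen S x y

/-- The setting: `M₁` is the generator of the substochastic semigroup `S₁`, and `P` is a positive
operator with `D(M₁) ⊆ D(P)` and `∫ (M₁ φ + P φ) ≤ 0` for `φ ∈ D_+(M₁)`. -/
def Setting (S₁ : ℝ → Op) (M₁ P : UOp) : Prop :=
  IsSubstochastic S₁ ∧ IsGenerator M₁ S₁ ∧ (∀ x y, Val M₁ x y → ∃ z, Val P x z) ∧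
  (∀ x y, Val P x y → Pos x → Pos y) ∧
  ∀ x y, Val (sumOp M₁ P) x y → Pos x → ∑' n, y n ≤ 0

/-- `J` is the Kato-Voigt semigroup: the minimal substochastic `C_0`-semigroup whose generator
extends `M₁ + P`. -/
def IsKatoVoigt (M₁ P : UOp) (J : ℝ → Op) : Prop :=
  IsSubstochastic J ∧ Extends J (sumOp M₁ P) ∧
  ∀ J' : ℝ → Op, IsSubstochastic J' → Extends J' (sumOp M₁ P) →
    ∀ t, 0 ≤ t → ∀ x, Pos x → Pos (ap (J' t) x - ap (J t) x)

/-- Honesty: the generator is the closure of `M₁ + P`. -/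
def Honest (M₁ P : UOp) (J : ℝ → Op) : Prop :=
  ∀ x y, Gen J x y ↔ (x, y) ∈ closure {p : E × E | Val (sumOp M₁ P) p.1 p.2}

/-- Genuine honesty: the generator is `M₁ + P` with domain `D(M₁)`. -/
def GenuinelyHonest (M₁ P : UOp) (J : ℝ → Op) : Prop := IsGenerator (sumOp M₁ P) J

/-- There is `v ∈ D_+(J₁)`, `v ≠ 0`, `v ∉ D(M₁)`, with `J₁ v = 0`. -/
def HasNullVector (M₁ : UOp) (J : ℝ → Op) : Prop :=
  ∃ v, Pos v ∧ v ≠ 0 ∧ (∀ y, ¬ Val M₁ v y) ∧ Gen J v 0

/-- `Q = P (0 - M₁)⁻¹` is the strong limit of `P (λ - M₁)⁻¹` as `λ → 0+`: for every `x` and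
`λ > 0` there is `r λ = (λ - M₁)⁻¹ x`, and `s λ = P (r λ)` tends to `Q x`. -/
def IsLimit (M₁ P : UOp) (Q : Op) : Prop :=
  ∀ x, ∃ (r : ℝ → E) (s : ℝ → E), (∀ l, 0 < l → Val M₁ (r l) (l • r l - x)) ∧
    (∀ l, 0 < l → Val P (r l) (s l)) ∧ Tendsto s (𝓝[>] 0) (𝓝 (ap Q x))

open Q82.KV in
/-- `M₁ x = - a x`. -/
def M : UOp where
  domain := D
  toFun :=
    { toFun := fun x => -mulA x
      map_add' := fun x y => by
        ext n
        change -(a n * (x.1 n + y.1 n)) = -(a n * x.1 n) + -(a n * y.1 n)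
        ring
      map_smul' := fun r x => by
        ext n
        change -(a n * (r * x.1 n)) = r * -(a n * x.1 n)
        ring }

open Q82.KV in
/-- `P x = a x - x + (∑ x) π`. -/
def P : UOp where
  domain := D
  toFun :=
    { toFun := fun x => mulA x + B x
      map_add' := fun x y => by
        rw [Submodule.coe_add, map_add]
        ext n
        change (a n * (x.1 n + y.1 n)) + ((B x) n + (B y) n) =
          ((a n * x.1 n) + (B x) n) + ((a n * y.1 n) + (B y) n)
        ring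
      map_smul' := fun r x => by
        rw [Submodule.coe_smul, map_smul]
        ext n
        change (a n * (r * x.1 n)) + r * (B x) n = r * ((a n * x.1 n) + (B x) n)
        ring }

open Q82.KV

lemma graph_M (x y : E) : (x, y) ∈ M.graph ↔ ∃ h : x ∈ D, y = -mulA ⟨x, h⟩ := by
  rw [LinearPMap.mem_graph_iff]
  constructor
  · rintro ⟨z, h1, h2⟩
    simp only at h1 h2
    subst h1
    exact ⟨z.2, h2.symm⟩
  · rintro ⟨h, rfl⟩
    exact ⟨⟨x, h⟩, rfl, rfl⟩

lemma graph_P (x y : E) : (x, y) ∈ P.graph ↔ ∃ h : x ∈ D, y = mulA ⟨x, h⟩ + B x := by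
  rw [LinearPMap.mem_graph_iff]
  constructor
  · rintro ⟨z, h1, h2⟩
    simp only at h1 h2
    subst h1
    exact ⟨z.2, h2.symm⟩
  · rintro ⟨h, rfl⟩
    exact ⟨⟨x, h⟩, rfl, rfl⟩

lemma graph_sum (x y : E) : (x, y) ∈ (M + P).graph ↔ x ∈ D ∧ y = B x := by
  rw [LinearPMap.mem_graph_iff]
  constructor
  · rintro ⟨z, h1, h2⟩
    simp only at h1 h2
    subst h1
    refine ⟨z.2.1, ?_⟩
    rw [← h2, LinearPMap.add_apply]
    change -mulA ⟨z, z.2.1⟩ + (mulA ⟨z, z.2.2⟩ + B z) = _
    abel
  · rintro ⟨h, rfl⟩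
    refine ⟨⟨x, ⟨h, h⟩⟩, rfl, ?_⟩
    rw [LinearPMap.add_apply]
    change -mulA ⟨x, _⟩ + (mulA ⟨x, _⟩ + B x) = _
    abel

lemma tot_B (x : E) : tot (B x) = 0 := by
  have : tot (B x + x) = tot (tot x • pv) := by rw [B_apply, sub_add_cancel]
  rw [tot_add, tot_smul, tot_pi] at this
  linarith

lemma substochastic_S1 : IsSubstochastic S1 := by
  refine ⟨⟨fun x => ?_, fun s t hs ht x => ?_, S1_csg.cont⟩, fun t _ x hx n => ?_, fun t ht x => ?_⟩
  · unfold ap; rw [S1_csg.zero]; rfl
  · unfold ap; rw [S1_csg.add s t hs ht]; rfl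
  · unfold ap; rw [S1_apply]
    exact mul_nonneg (Real.exp_pos _).le (hx n)
  · exact S1_csg.norm_le ht x

lemma setting : Setting S1 M P := by
  refine ⟨substochastic_S1, ?_, ?_, ?_, ?_⟩
  · intro x y
    unfold Val
    rw [graph_M]
    refine (S1_gen x y).trans ?_
    constructor
    · rintro ⟨h, hy⟩
      refine ⟨h, ?_⟩
      ext n
      exact hy n
    · rintro ⟨h, rfl⟩
      exact ⟨h, fun n => rfl⟩
  · intro x y h
    obtain ⟨hx, _⟩ := (graph_M x y).1 h
    exact ⟨_, (graph_P x _).2 ⟨hx, rfl⟩⟩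
  · intro x y h hx n
    obtain ⟨hD, rfl⟩ := (graph_P x y).1 h
    change 0 ≤ a n * x n + (tot x * pv n - x n)
    have h1 := one_le_a n
    have h2 : 0 ≤ tot x := tsum_nonneg hx
    have h3 : 0 ≤ pv n := by rw [pi_apply]; exact inv_nonneg.2 (a_pos n).le
    have h4 := hx n
    nlinarith [mul_nonneg h2 h3]
  · intro x y h _
    obtain ⟨_, rfl⟩ := (graph_sum x y).1 h
    exact (tot_B x).le

lemma substochastic_J : IsSubstochastic J := by
  refine ⟨⟨fun x => ?_, fun s t hs ht x => ?_, J_csg.cont⟩, fun t ht x hx n => ?_, fun t ht x => ?_⟩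
  · unfold ap; rw [J_csg.zero]; rfl
  · unfold ap; rw [J_csg.add s t hs ht]; rfl
  · exact J_pos ht hx n
  · exact J_csg.norm_le ht x

lemma csg_of {S : ℝ → Op} (h : IsSubstochastic S) : Q82.C0Sg.IsCSg S where
  zero := by
    ext1 x
    exact h.1.1 x
  add := by
    intro s t hs ht
    ext1 x
    exact h.1.2.1 s t hs ht x
  cont := h.1.2.2
  contr := by
    intro t ht
    apply ContinuousLinearMap.opNorm_le_bound _ zero_le_one
    intro x
    rw [one_mul]
    exact h.2.2 t ht x

lemma katoVoigt : IsKatoVoigt M P J := by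
  refine ⟨substochastic_J, ?_, ?_⟩
  · intro x y h
    obtain ⟨_, rfl⟩ := (graph_sum x y).1 h
    exact J_gen x
  · intro J' hJ' h t ht x _ n
    have h1 : J' t = J t :=
      unique_J (csg_of hJ') (fun x hx => h x (B x) ((graph_sum x _).2 ⟨hx, rfl⟩)) ht
    rw [h1, sub_self]
    exact le_rfl

lemma honest : Honest M P J := by
  intro x y
  constructor
  · intro h
    have hy : y = B x := tendsto_nhds_unique h (J_gen x)
    subst hy
    rw [Metric.mem_closure_iff]
    intro ε hε
    obtain ⟨x', hx', hn⟩ := D_dense x (ε := ε / (2 * (‖B‖ + 1))) (by positivity)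
    refine ⟨(x', B x'), (graph_sum _ _).2 ⟨hx', rfl⟩, ?_⟩
    rw [dist_comm, Prod.dist_eq, max_lt_iff, dist_eq_norm, dist_eq_norm]
    simp only
    rw [le_div_iff₀ (by positivity)] at hn
    have hB := norm_nonneg B
    have hx0 := norm_nonneg (x' - x)
    constructor
    · nlinarith
    · rw [← map_sub]
      have := B.le_opNorm (x' - x)
      nlinarith
  · intro h
    have hc : IsClosed {p : E × E | p.2 = B p.1} :=
      isClosed_eq continuous_snd (B.continuous.comp continuous_fst)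
    have hsub : {p : E × E | Val (sumOp M P) p.1 p.2} ⊆ {p : E × E | p.2 = B p.1} := by
      rintro ⟨x, y⟩ hxy
      exact ((graph_sum x y).1 hxy).2
    have h2 : (x, y) ∈ {p : E × E | p.2 = B p.1} := closure_minimal hsub hc h
    have hy : y = B x := h2
    rw [hy]
    exact J_gen x

lemma pi_not_mem : pv ∉ D := by
  intro h
  have h1 : Summable (fun n => |a n * pv n|) := h
  have h2 : (fun n => |a n * pv n|) = fun _ : ℕ => (1 : ℝ) := by
    ext n
    rw [pi_apply, mul_inv_cancel₀ (a_pos n).ne', abs_one]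
  rw [h2] at h1
  exact absurd ((summable_const_iff (1 : ℝ)).1 h1) one_ne_zero

lemma B_pi : B pv = 0 := by rw [B_apply, tot_pi, one_smul, sub_self]

lemma pi_ne : pv ≠ 0 := by
  intro h
  have := tot_pi
  rw [h] at this
  unfold tot at this
  simp at this

/-- division by `a` -/
def inv (x : E) (l : ℝ) : E :=
  Q82.KV.mk (fun n => (max l 0 + a n)⁻¹ * x n) (by
    refine Summable.of_nonneg_of_le (fun _ => abs_nonneg _) (fun n => ?_) (summ x)
    rw [abs_mul]
    have h1 := one_le_a n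
    have h2 := le_max_right l 0
    rw [abs_of_pos (inv_pos.2 (by linarith))]
    have : (max l 0 + a n)⁻¹ ≤ 1 := inv_le_one_of_one_le₀ (by linarith)
    nlinarith [abs_nonneg (x n)])

lemma inv_apply (x : E) (l : ℝ) (n : ℕ) : inv x l n = (max l 0 + a n)⁻¹ * x n := rfl

lemma inv_mem (x : E) (l : ℝ) : inv x l ∈ D := by
  change Summable (fun n => |a n * inv x l n|)
  refine Summable.of_nonneg_of_le (fun _ => abs_nonneg _) (fun n => ?_) (summ x)
  rw [inv_apply, ← mul_assoc, abs_mul]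
  have h1 := one_le_a n
  have h2 := le_max_right l 0
  have h3 : |a n * (max l 0 + a n)⁻¹| ≤ 1 := by
    rw [abs_of_pos (by positivity), ← div_eq_mul_inv, div_le_one (by linarith)]
    linarith
  nlinarith [abs_nonneg (x n)]

lemma inv_le (x : E) (l : ℝ) (n : ℕ) : |inv x l n| ≤ |x n| := by
  rw [inv_apply, abs_mul]
  have h1 := one_le_a n
  have h2 := le_max_right l 0
  rw [abs_of_pos (inv_pos.2 (by linarith))]
  have : (max l 0 + a n)⁻¹ ≤ 1 := inv_le_one_of_one_le₀ (by linarith)
  nlinarith [abs_nonneg (x n)]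

lemma inv_tendsto (x : E) : Tendsto (fun l => inv x l) (𝓝[>] 0) (𝓝 (inv x 0)) := by
  apply tendsto_dom ((summ x).mul_left 2)
  · intro n
    have hc : ContinuousAt (fun l : ℝ => (max l 0 + a n)⁻¹ * x n) 0 := by
      apply ContinuousAt.mul _ continuousAt_const
      apply ContinuousAt.inv₀
      · fun_prop
      · have := a_pos n
        simp only [max_self, zero_add]
        exact this.ne'
    exact hc.tendsto.mono_left nhdsWithin_le_nhds
  · refine Eventually.of_forall fun l n => ?_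
    have h1 := inv_le x l n
    have h2 := inv_le x 0 n
    have h3 := abs_sub (inv x l n) (inv x 0 n)
    linarith

/-- the operator `u ↦ u / a` -/
def invL : E →L[ℝ] E :=
  LinearMap.mkContinuous
    { toFun := fun x => inv x 0
      map_add' := fun x y => by
        ext n
        change _ * (x n + y n) = _ * x n + _ * y n
        ring
      map_smul' := fun r x => by
        ext n
        change _ * (r * x n) = r * (_ * x n)
        ring } 1 (fun x => by
      rw [one_mul, Q82.KV.norm_eq, Q82.KV.norm_eq]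
      exact (summ (inv x 0)).tsum_le_tsum (fun n => inv_le x 0 n) (summ x))

lemma invL_apply (x : E) : invL x = inv x 0 := rfl

/-- `Q u = u + B (u / a)` -/
def Q : E →L[ℝ] E := 1 + B * invL

lemma isLimit : IsLimit M P Q := by
  intro x
  refine ⟨fun l => inv x l, fun l => x - (max l 0) • inv x l + B (inv x l), ?_, ?_, ?_⟩
  · intro l hl
    refine (graph_M _ _).2 ⟨inv_mem x l, ?_⟩
    ext n
    change l * inv x l n - x n = -(a n * inv x l n)
    rw [inv_apply, max_eq_left hl.le]
    have := a_pos n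
    have : l + a n ≠ 0 := by positivity
    field_simp
    ring
  · intro l hl
    refine (graph_P _ _).2 ⟨inv_mem x l, ?_⟩
    change x - max l 0 • inv x l + B (inv x l) = mulA ⟨inv x l, inv_mem x l⟩ + B (inv x l)
    congr 1
    ext n
    change x n - max l 0 * inv x l n = a n * inv x l n
    rw [inv_apply]
    have := a_pos n
    have : max l 0 + a n ≠ 0 := by
      have := le_max_right l 0
      positivity
    field_simp
    ring
  · have h1 := inv_tendsto x
    have h2 : Tendsto (fun l : ℝ => max l 0) (𝓝[>] 0) (𝓝 0) := by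
      have : Continuous (fun l : ℝ => max l 0) := by fun_prop
      have h := this.tendsto 0
      simp only [max_self] at h
      exact h.mono_left nhdsWithin_le_nhds
    have h3 := (h2.smul h1).const_sub x
    have h4 := h3.add ((B.continuous.tendsto _).comp h1)
    rw [zero_smul, sub_zero] at h4
    exact h4

lemma no_fixed (u : E) (hu : Q u = u) : u = 0 := by
  have h1 : B (inv u 0) = 0 := by
    have : u + B (inv u 0) = u := hu
    simpa using this
  rw [B_apply, sub_eq_zero] at h1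
  have h2 : ∀ n, u n = tot (inv u 0) := by
    intro n
    have h3 : (tot (inv u 0) • pv) n = (inv u 0) n := by rw [h1]
    have h4 : tot (inv u 0) * (a n)⁻¹ = (max (0 : ℝ) 0 + a n)⁻¹ * u n := h3
    rw [max_self, zero_add] at h4
    have := a_pos n
    field_simp at h4
    exact h4.symm
  have h5 : Summable (fun _ : ℕ => tot (inv u 0)) := (summ' u).congr h2
  have h6 := (summable_const_iff _).1 h5
  ext n
  rw [h2, h6]
  rfl

/-- **Negative answer.**  On `L^1(ν) = ℓ^1(ℕ)` there are `M₁` and `P` as in the setting, with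
Kato-Voigt semigroup `J` honest but not genuinely honest, and a nonzero `v ∈ D_+(J₁)`,
`v ∉ D(M₁)`, `J₁ v = 0`, such that `Q = P (0 - M₁)⁻¹` has no nonzero fixed vector at all. -/
theorem result :
    ∃ (S₁ J : ℝ → Op) (M₁ P : UOp) (Q : Op),
      Setting S₁ M₁ P ∧ IsKatoVoigt M₁ P J ∧ Honest M₁ P J ∧ ¬ GenuinelyHonest M₁ P J ∧
      HasNullVector M₁ J ∧ IsLimit M₁ P Q ∧ ∀ u, u ≠ 0 → ap Q u ≠ u := by
  have hv : Gen J pv 0 := by
    have := J_gen pv
    rwa [B_pi] at this
  refine ⟨S1, J, M, P, Q, setting, katoVoigt, honest, ?_, ⟨pv, ?_, pi_ne, ?_, hv⟩,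
    isLimit, fun u hu h => hu (no_fixed u h)⟩
  · intro h
    exact pi_not_mem ((graph_sum _ _).1 ((h pv 0).1 hv)).1
  · intro n
    rw [pi_apply]
    exact inv_nonneg.2 (a_pos n).le
  · intro y h
    exact pi_not_mem ((graph_M _ _).1 h).1

end

end Pool.Agent.Results.MP_e4fc02_an.NoFixedPoint
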